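import Pool.Agent.W_cae956_gt.Gen

set_option autoImplicit false

/-! # MP_cae956_an: joint transitivity for generic tuples of points

The assertion of Q1 with the diagonal point `(x, ..., x)` replaced by a generic point
`(x_1, ..., x_ℓ)` of `X ^ ℓ`: for a nilpotent group `G` acting minimally, totally transitive maps
`T_1, ..., T_ℓ` in `G` and independent integer polynomials `p_1, ..., p_ℓ` the set of all
`(T_1 ^ p_1(n) x_1, ..., T_ℓ ^ p_ℓ(n) x_ℓ)` is dense in `X ^ ℓ` for all `(x_1, ..., x_ℓ)` in a dense
G-delta subset of `X ^ ℓ`. The case `ℓ = 1` is the coordinate-wise part of Q1. Nothing is assumed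
about mixing, equicontinuous factors, or the degrees. -/

open Polynomial

namespace Pool.Agent.Results.MP_cae956_an.GenericTuples

/-- `T` is totally transitive -/
def TotallyTransitive {E : Type} [TopologicalSpace E] (T : E ≃ₜ E) : Prop :=
  ∀ r : ℕ, 0 < r → ∃ y : E, Dense (Set.range fun n : ℤ => (T ^ ((r : ℤ) * n)) y)

/-- `T` lies in some term of the upper central series of some group of homeomorphisms that acts
minimally -/
def HypercentralMinimal {E : Type} [TopologicalSpace E] (T : E ≃ₜ E) : Prop :=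
  ∃ G : Subgroup (E ≃ₜ E), (∀ z : E, Dense {y : E | ∃ g ∈ G, g z = y}) ∧
    ∃ (s : ℕ) (h : T ∈ G), (⟨T, h⟩ : G) ∈ Subgroup.upperCentralSeries G s

/-- no nontrivial integer combination of the polynomials is constant -/
def Independent {ℓ : ℕ} (p : Fin ℓ → ℤ[X]) : Prop :=
  ∀ c : Fin ℓ → ℤ, c ≠ 0 → 0 < (∑ i, c i • p i).natDegree

theorem result :
    -- (A) countably many compact metric spaces `Y a`, countably many maps `T a k` of each of them
    (∀ (A : Type) [Countable A] (Y : A → Type) [∀ a, MetricSpace (Y a)] [∀ a, CompactSpace (Y a)]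
      (ι : Type) [Countable ι] (T : ∀ a, ι → (Y a ≃ₜ Y a)),
      ∃ S : Set (∀ a, Y a), IsGδ S ∧ Dense S ∧
        ∀ x ∈ S, ∀ (ℓ : ℕ) (a : Fin ℓ → A) (k : Fin ℓ → ι), Function.Injective a →
          (∀ i, HypercentralMinimal (T (a i) (k i))) → (∀ i, TotallyTransitive (T (a i) (k i))) →
          ∀ p : Fin ℓ → ℤ[X], Independent p → Dense (Set.range fun (n : ℤ) (i : Fin ℓ) =>
            (T (a i) (k i) ^ ((p i).eval n)) (x (a i)))) ∧
    -- (B) the setting of the problem: the maps generate a nilpotent group acting minimally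
    (∀ (Y : Type) [MetricSpace Y] [CompactSpace Y] (ℓ : ℕ) (T : Fin ℓ → (Y ≃ₜ Y)),
      Group.IsNilpotent (Subgroup.closure (Set.range T)) →
      (∀ z : Y, Dense {y : Y | ∃ g ∈ Subgroup.closure (Set.range T), g z = y}) →
      (∀ j : Fin ℓ, TotallyTransitive (T j)) →
      -- generic tuples
      (∃ S : Set (Fin ℓ → Y), IsGδ S ∧ Dense S ∧
        ∀ x ∈ S, ∀ p : Fin ℓ → ℤ[X], Independent p → Dense (Set.range fun (n : ℤ) (j : Fin ℓ) =>
          (T j ^ ((p j).eval n)) (x j))) ∧
      -- generic points of the diagonal, one coordinate at a time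
      (∃ S : Set Y, IsGδ S ∧ Dense S ∧ ∀ x ∈ S, ∀ (j : Fin ℓ) (p : ℤ[X]), 0 < p.natDegree →
        Dense (Set.range fun n : ℤ => (T j ^ (p.eval n)) x))) := by
  have hA : ∀ (A : Type) [Countable A] (Y : A → Type) [∀ a, MetricSpace (Y a)]
      [∀ a, CompactSpace (Y a)] (ι : Type) [Countable ι] (T : ∀ a, ι → (Y a ≃ₜ Y a)),
      ∃ S : Set (∀ a, Y a), IsGδ S ∧ Dense S ∧
        ∀ x ∈ S, ∀ (ℓ : ℕ) (a : Fin ℓ → A) (k : Fin ℓ → ι), Function.Injective a →
          (∀ i, HypercentralMinimal (T (a i) (k i))) → (∀ i, TotallyTransitive (T (a i) (k i))) →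
          ∀ p : Fin ℓ → ℤ[X], Independent p → Dense (Set.range fun (n : ℤ) (i : Fin ℓ) =>
            (T (a i) (k i) ^ ((p i).eval n)) (x (a i))) := by
    intro A _ Y _ _ ι _ T
    exact Pool.Agent.W_cae956_gt.generic_tuples A Y ι T
  refine ⟨hA, ?_⟩
  intro Y _ _ ℓ T hnil hmin htt
  obtain ⟨s, hs⟩ := hnil.nilpotent
  have hH : ∀ j, HypercentralMinimal (T j) := by
    intro j
    refine ⟨Subgroup.closure (Set.range T), hmin, s, Subgroup.subset_closure ⟨j, rfl⟩, ?_⟩
    rw [hs]
    exact Subgroup.mem_top _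
  constructor
  · obtain ⟨S, hS1, hS2, hS3⟩ := hA (Fin ℓ) (fun _ => Y) Unit (fun a _ => T a)
    exact ⟨S, hS1, hS2, fun x hx p hp => hS3 x hx ℓ _root_.id (fun _ => ()) Function.injective_id
      (fun i => hH i) (fun i => htt i) p hp⟩
  · obtain ⟨S, hS1, hS2, hS3⟩ := hA Unit (fun _ => Y) (Fin ℓ) (fun _ => T)
    refine ⟨(fun y (_ : Unit) => y) ⁻¹' S, ?_, ?_, ?_⟩
    · exact hS1.preimage (continuous_pi fun _ => continuous_id)
    · have h1 : (fun (y : Y) (_ : Unit) => y) ⁻¹' S =
          (Homeomorph.funUnique Unit Y) '' S := by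
        ext y
        constructor
        · intro hy
          exact ⟨fun _ => y, hy, rfl⟩
        · rintro ⟨z, hz, rfl⟩
          have : (fun _ : Unit => (Homeomorph.funUnique Unit Y) z) = z := by
            funext u
            rfl
          show (fun _ : Unit => (Homeomorph.funUnique Unit Y) z) ∈ S
          rw [this]
          exact hz
      rw [h1]
      exact (Homeomorph.funUnique Unit Y).surjective.denseRange.dense_image
        (Homeomorph.funUnique Unit Y).continuous hS2
    · intro x hx j p hp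
      have h2 := hS3 (fun _ => x) hx 1 (fun _ => ()) (fun _ => j)
        (fun _ _ _ => Subsingleton.elim _ _) (fun _ => hH j) (fun _ => htt j) (fun _ => p) (by
          intro c hc
          have hc0 : c 0 ≠ 0 := by
            intro h
            apply hc
            funext i
            rw [Subsingleton.elim i 0, h]
            rfl
          rw [Fin.sum_univ_one, natDegree_smul _ hc0]
          exact hp)
      have h3 : Continuous (fun z : Fin 1 → Y => z 0) := continuous_apply 0
      have h4 : Dense ((fun z : Fin 1 → Y => z 0) '' (Set.range fun (n : ℤ) (_ : Fin 1) =>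
          (T j ^ (p.eval n)) x)) := by
        have h5 : DenseRange (fun z : Fin 1 → Y => z 0) :=
          Function.Surjective.denseRange fun y => ⟨fun _ => y, rfl⟩
        exact h5.dense_image h3 h2
      rwa [← Set.range_comp] at h4

end Pool.Agent.Results.MP_cae956_an.GenericTuples
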