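import Pool.Agent.W_cae956_h7.Final

set_option autoImplicit false

/-! # MP_cae956_an: joint transitivity for noncommutative nilpotent groups

The conclusion of Q1 for noncommutative nilpotent groups acting minimally in which every
nonidentity element has a dense orbit. -/

namespace Pool.Agent.Results.MP_cae956_an.NilpotentTransitive

theorem result :
    ∀ (X : Type) [MetricSpace X] [CompactSpace X] (G : Subgroup (X ≃ₜ X)) (ℓ : ℕ)
      (T : Fin ℓ → (X ≃ₜ X)) (p : Fin ℓ → Polynomial ℤ),
      -- `G` is nilpotent and not commutative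
      Group.IsNilpotent G →
      (∃ g ∈ G, ∃ h ∈ G, g * h ≠ h * g) →
      -- `G` acts minimally
      (∀ x : X, Dense {y : X | ∃ g ∈ G, g x = y}) →
      -- every nonidentity element of `G` has a dense orbit
      (∀ g ∈ G, g ≠ 1 → ∃ x : X, Dense (Set.range fun n : ℤ => (g ^ n) x)) →
      -- the `T j` are nonidentity elements of `G`
      (∀ j : Fin ℓ, T j ∈ G ∧ T j ≠ 1) →
      -- the polynomials are nonconstant and pairwise independent
      (∀ j : Fin ℓ, 0 < (p j).natDegree) →
      (∀ i j : Fin ℓ, i ≠ j → ∀ a b : ℤ, (a ≠ 0 ∨ b ≠ 0) → 0 < (a • p i + b • p j).natDegree) →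
      ∃ S : Set X, IsGδ S ∧ Dense S ∧
        ∀ x ∈ S, Dense (Set.range (fun n : ℤ => fun j : Fin ℓ => (T j ^ ((p j).eval n)) x)) :=
  fun X _ _ G ℓ T p hnil hnc hmin htr hT hdeg hind =>
    Pool.Agent.W_cae956_h7.joint_homeo X G ℓ T p hnil hnc hmin htr hT hdeg hind

end Pool.Agent.Results.MP_cae956_an.NilpotentTransitive
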