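import Pool.Agent.W_helper59_cae956.Action

set_option autoImplicit false

/-! # MP_cae956_an: joint transitivity for weakly mixing minimal actions of commuting maps

The conclusion of Q1 for abelian groups acting minimally and weakly mixingly (as a group action).
The single maps are only assumed to have a dense orbit; if the degrees of the polynomials are
pairwise distinct nothing else is assumed. -/

namespace Pool.Agent.Results.MP_cae956_an.WeakMixingAction

theorem result :
    ∀ (X : Type) [MetricSpace X] [CompactSpace X] (ℓ : ℕ) (T : Fin ℓ → (X ≃ₜ X))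
      (p : Fin ℓ → Polynomial ℤ),
      -- the maps commute
      (∀ i j : Fin ℓ, T i * T j = T j * T i) →
      -- the group generated by them acts minimally
      (∀ x : X, Dense {y : X | ∃ g ∈ Subgroup.closure (Set.range T), g x = y}) →
      -- the group action is weakly mixing: some point of `X × X` has a dense orbit
      (∃ z : X × X,
        Dense {w : X × X | ∃ g ∈ Subgroup.closure (Set.range T), (g z.1, g z.2) = w}) →
      -- every `T j` has a dense orbit
      (∀ j : Fin ℓ, ∃ x : X, Dense (Set.range fun n : ℤ => (T j ^ n) x)) →
      -- the polynomials are nonconstant and pairwise independent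
      (∀ j : Fin ℓ, 0 < (p j).natDegree) →
      (∀ i j : Fin ℓ, i ≠ j → ∀ a b : ℤ, (a ≠ 0 ∨ b ≠ 0) → 0 < (a • p i + b • p j).natDegree) →
      -- for every degree `d` shared by at least two of the polynomials, all nonidentity elements
      -- of the group generated by the maps `T j` with `deg (p j) = d` have a dense orbit
      (∀ d : ℕ, (∃ i j : Fin ℓ, i ≠ j ∧ (p i).natDegree = d ∧ (p j).natDegree = d) →
        ∀ g ∈ Subgroup.closure {g : X ≃ₜ X | ∃ j : Fin ℓ, T j = g ∧ (p j).natDegree = d},
          g ≠ 1 → ∃ x : X, Dense (Set.range fun n : ℤ => (g ^ n) x)) →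
      ∃ S : Set X, IsGδ S ∧ Dense S ∧
        ∀ x ∈ S, Dense (Set.range (fun n : ℤ => fun j : Fin ℓ => (T j ^ ((p j).eval n)) x)) :=
  fun X _ _ ℓ T p hc hmin hact htr hdeg hind hel =>
    Pool.Agent.W_helper59_cae956.Action_joint X ℓ T p hc hmin hact htr hdeg hind hel

end Pool.Agent.Results.MP_cae956_an.WeakMixingAction
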